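import Mathlib

/-!
The theorem of Poincaré and Pólya in one variable: a real polynomial which is positive on the
closed half line has a product with a power of `1 + X` whose coefficients are nonnegative.
-/

namespace Q48.Polya1

open Polynomial

/-- some product with a power of `1 + X` has nonnegative coefficients -/
def P (G : ℝ[X]) : Prop := ∃ m : ℕ, ∀ k, 0 ≤ ((1 + X) ^ m * G).coeff k

theorem nonneg_mul {A B : ℝ[X]} (hA : ∀ k, 0 ≤ A.coeff k) (hB : ∀ k, 0 ≤ B.coeff k) (k : ℕ) :
    0 ≤ (A * B).coeff k := by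
  rw [coeff_mul]
  exact Finset.sum_nonneg fun x _ => mul_nonneg (hA _) (hB _)

theorem P.mul {A B : ℝ[X]} (hA : P A) (hB : P B) : P (A * B) := by
  obtain ⟨m, hm⟩ := hA
  obtain ⟨l, hl⟩ := hB
  refine ⟨m + l, fun k => ?_⟩
  have : (1 + X : ℝ[X]) ^ (m + l) * (A * B) = ((1 + X) ^ m * A) * ((1 + X) ^ l * B) := by
    rw [pow_add]; ring
  rw [this]
  exact nonneg_mul hm hl k

theorem P_of_nonneg {A : ℝ[X]} (hA : ∀ k, 0 ≤ A.coeff k) : P A := ⟨0, by simpa using hA⟩

theorem P_C {c : ℝ} (hc : 0 ≤ c) : P (C c) := P_of_nonneg fun k => by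
  rw [coeff_C]; split_ifs <;> simp [hc]

theorem P_lin {r : ℝ} (hr : r ≤ 0) : P (X - C r) := P_of_nonneg fun k => by
  rw [coeff_sub, coeff_X, coeff_C]
  split_ifs <;> linarith

theorem choose_a (m k : ℕ) (hk : k ≤ m + 2) :
    ((m : ℝ) + 1) * (m + 2) * (m.choose k : ℝ) =
      ((m + 2).choose k : ℝ) * (((m : ℝ) + 2 - k) * ((m : ℝ) + 1 - k)) := by
  rcases Nat.lt_or_ge (m + 1) k with h | h
  · have hk' : k = m + 2 := by omega
    subst hk'
    rw [Nat.choose_eq_zero_of_lt (by omega : m < m + 2)]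
    push_cast
    ring
  · have h1 := Nat.choose_mul_succ_eq m k
    have h2 := Nat.choose_mul_succ_eq (m + 1) k
    have h1' : (m.choose k : ℝ) * (m + 1) = ((m + 1).choose k : ℝ) * ((m : ℝ) + 1 - k) := by
      have := congrArg (fun n : ℕ => (n : ℝ)) h1
      push_cast [Nat.cast_sub h] at this
      exact this
    have h2' : ((m + 1).choose k : ℝ) * (m + 2) = ((m + 2).choose k : ℝ) * ((m : ℝ) + 2 - k) := by
      have := congrArg (fun n : ℕ => (n : ℝ)) h2
      push_cast [Nat.cast_sub (show k ≤ m + 1 + 1 by omega)] at this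
      have e : (m : ℝ) + 1 + 1 = m + 2 := by ring
      rw [e] at this
      exact this
    calc ((m : ℝ) + 1) * (m + 2) * (m.choose k : ℝ)
        = (m + 2) * ((m.choose k : ℝ) * (m + 1)) := by ring
      _ = (((m + 1).choose k : ℝ) * (m + 2)) * ((m : ℝ) + 1 - k) := by rw [h1']; ring
      _ = _ := by rw [h2']; ring

theorem choose_b (m j : ℕ) (hj : j ≤ m + 1) :
    ((m : ℝ) + 1) * (m + 2) * (m.choose j : ℝ) =
      ((m + 2).choose (j + 1) : ℝ) * (((j : ℝ) + 1) * ((m : ℝ) + 1 - j)) := by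
  have h1 := Nat.choose_mul_succ_eq m j
  have h2 := Nat.add_one_mul_choose_eq (m + 1) j
  have h1' : (m.choose j : ℝ) * (m + 1) = ((m + 1).choose j : ℝ) * ((m : ℝ) + 1 - j) := by
    have := congrArg (fun n : ℕ => (n : ℝ)) h1
    push_cast [Nat.cast_sub hj] at this
    exact this
  have h2' : ((m : ℝ) + 2) * ((m + 1).choose j : ℝ)
      = ((m + 2).choose (j + 1) : ℝ) * ((j : ℝ) + 1) := by
    have := congrArg (fun n : ℕ => (n : ℝ)) h2
    push_cast at this
    have e : (m : ℝ) + 1 + 1 = m + 2 := by ring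
    rw [e] at this
    exact this
  calc ((m : ℝ) + 1) * (m + 2) * (m.choose j : ℝ)
      = (m + 2) * ((m.choose j : ℝ) * (m + 1)) := by ring
    _ = (((m : ℝ) + 2) * ((m + 1).choose j : ℝ)) * ((m : ℝ) + 1 - j) := by rw [h1']; ring
    _ = _ := by rw [h2']; ring

theorem choose_c (m j : ℕ) :
    ((m : ℝ) + 1) * (m + 2) * (m.choose j : ℝ) =
      ((m + 2).choose (j + 2) : ℝ) * (((j : ℝ) + 2) * ((j : ℝ) + 1)) := by
  have h1 := Nat.add_one_mul_choose_eq m j
  have h2 := Nat.add_one_mul_choose_eq (m + 1) (j + 1)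
  have h1' : ((m : ℝ) + 1) * (m.choose j : ℝ) = ((m + 1).choose (j + 1) : ℝ) * ((j : ℝ) + 1) := by
    have := congrArg (fun n : ℕ => (n : ℝ)) h1
    push_cast at this
    exact this
  have h2' : ((m : ℝ) + 2) * ((m + 1).choose (j + 1) : ℝ)
      = ((m + 2).choose (j + 2) : ℝ) * ((j : ℝ) + 2) := by
    have := congrArg (fun n : ℕ => (n : ℝ)) h2
    push_cast at this
    have e : (m : ℝ) + 1 + 1 = m + 2 := by ring
    have e' : (j : ℝ) + 1 + 1 = j + 2 := by ring
    rw [e, e'] at this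
    exact this
  calc ((m : ℝ) + 1) * (m + 2) * (m.choose j : ℝ)
      = (m + 2) * (((m : ℝ) + 1) * (m.choose j : ℝ)) := by ring
    _ = (((m : ℝ) + 2) * ((m + 1).choose (j + 1) : ℝ)) * ((j : ℝ) + 1) := by rw [h1']; ring
    _ = _ := by rw [h2']; ring

/-- the quadratic form estimate -/
theorem quad_est {p q : ℝ} (hpq : p ^ 2 < q) : ∃ M0 : ℝ, ∀ a b : ℝ, 0 ≤ a → 0 ≤ b →
    M0 ≤ a + b → 0 ≤ a * (a - 1) - 2 * p * (a * b) + q * (b * (b - 1)) := by
  -- a² - 2 p a b + q b² ≥ δ (a + b)²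
  have hq : 0 < q := lt_of_le_of_lt (sq_nonneg p) hpq
  set D := q - p ^ 2 with hD
  have hD0 : 0 < D := by rw [hD]; linarith
  -- minimal value over a + b = 1 is D / (1 + 2 p + q)
  set W := 1 + 2 * p + q with hW
  have hW0 : 0 < W := by
    have : W = (1 + p) ^ 2 + D := by rw [hW, hD]; ring
    rw [this]; positivity
  have key : ∀ a b : ℝ, D / W * (a + b) ^ 2 ≤ a ^ 2 - 2 * p * (a * b) + q * b ^ 2 := by
    intro a b
    rw [div_mul_eq_mul_div, div_le_iff₀ hW0]
    have : (a ^ 2 - 2 * p * (a * b) + q * b ^ 2) * W - D * (a + b) ^ 2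
        = ((1 + p) * a - (p + q) * b) ^ 2 := by rw [hW, hD]; ring
    nlinarith [sq_nonneg ((1 + p) * a - (p + q) * b)]
  refine ⟨(1 + q) * W / D, fun a b ha hb hab => ?_⟩
  have h1 := key a b
  have h2 : (1 + q) * (a + b) ≤ D / W * (a + b) ^ 2 := by
    have h3 : (1 + q) * W ≤ D * (a + b) := by
      rw [div_le_iff₀ hD0] at hab
      linarith
    have h4 : 1 + q ≤ D / W * (a + b) := by
      rw [div_mul_eq_mul_div, le_div_iff₀ hW0]
      exact h3
    have h5 : 0 ≤ a + b := add_nonneg ha hb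
    calc (1 + q) * (a + b) ≤ (D / W * (a + b)) * (a + b) := mul_le_mul_of_nonneg_right h4 h5
      _ = _ := by ring
  nlinarith [mul_nonneg hq.le ha]

theorem P_quad {p q : ℝ} (hpq : p ^ 2 < q) : P (X ^ 2 - C (2 * p) * X + C q) := by
  obtain ⟨M0, hM0⟩ := quad_est hpq
  obtain ⟨m, hm⟩ := exists_nat_ge M0
  refine ⟨m, fun k => ?_⟩
  have hcoef : ((1 + X) ^ m * (X ^ 2 - C (2 * p) * X + C q) : ℝ[X])
      = (1 + X) ^ m * X ^ 2 - C (2 * p) * ((1 + X) ^ m * X) + C q * (1 + X) ^ m := by ring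
  rw [hcoef, coeff_add, coeff_sub, coeff_C_mul, coeff_C_mul, coeff_one_add_X_pow]
  have hpos : (0 : ℝ) < ((m : ℝ) + 1) * (m + 2) := by positivity
  by_cases hk : k ≤ m + 2
  swap
  · -- all terms vanish
    obtain ⟨j, rfl⟩ : ∃ j, k = j + 2 := ⟨k - 2, by omega⟩
    rw [coeff_mul_X_pow, coeff_mul_X, coeff_one_add_X_pow, coeff_one_add_X_pow,
      Nat.choose_eq_zero_of_lt (by omega), Nat.choose_eq_zero_of_lt (by omega),
      Nat.choose_eq_zero_of_lt (by omega)]
    simp
  have hmain : ((m : ℝ) + 1) * (m + 2) * (((1 + X) ^ m * X ^ 2 : ℝ[X]).coeff k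
      - 2 * p * ((1 + X) ^ m * X : ℝ[X]).coeff k + q * (m.choose k : ℝ))
      = ((m + 2).choose k : ℝ) * ((k : ℝ) * (k - 1) - 2 * p * ((k : ℝ) * ((m : ℝ) + 2 - k))
        + q * (((m : ℝ) + 2 - k) * ((m : ℝ) + 2 - k - 1))) := by
    have ha := choose_a m k hk
    rcases k with _ | _ | j
    · simp only [coeff_mul_X_zero, Nat.choose_zero_right, Nat.cast_zero, Nat.cast_one]
      have : ((1 + X) ^ m * X ^ 2 : ℝ[X]).coeff 0 = 0 := by
        rw [coeff_mul_X_pow']
        simp
      rw [this]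
      ring
    · have : ((1 + X) ^ m * X ^ 2 : ℝ[X]).coeff (0 + 1) = 0 := by
        rw [coeff_mul_X_pow']
        simp
      rw [this, coeff_mul_X, coeff_one_add_X_pow]
      have hb := choose_b m 0 (by omega)
      push_cast at ha hb ⊢
      linear_combination (-2 * p) * hb + q * ha
    · rw [coeff_mul_X_pow, coeff_mul_X, coeff_one_add_X_pow, coeff_one_add_X_pow]
      have hb := choose_b m (j + 1) (by omega)
      have hc := choose_c m j
      push_cast at ha hb hc ⊢
      linear_combination (-2 * p) * hb + q * ha + hc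
  have hk' : (k : ℝ) ≤ (m : ℝ) + 2 := by exact_mod_cast hk
  have h3 := hM0 (k : ℝ) ((m : ℝ) + 2 - k) (Nat.cast_nonneg k) (by linarith) (by linarith)
  have h4 : 0 ≤ ((m : ℝ) + 1) * (m + 2) * (((1 + X) ^ m * X ^ 2 : ℝ[X]).coeff k
      - 2 * p * ((1 + X) ^ m * X : ℝ[X]).coeff k + q * (m.choose k : ℝ)) := by
    rw [hmain]
    exact mul_nonneg (Nat.cast_nonneg _) h3
  exact nonneg_of_mul_nonneg_right h4 hpos

theorem polya_aux : ∀ (n : ℕ) (G : ℝ[X]), G.natDegree ≤ n → (∀ z, 0 ≤ z → 0 < G.eval z) → P G := by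
  intro n
  induction n with
  | zero =>
    intro G hG h
    rw [Nat.le_zero] at hG
    rw [eq_C_of_natDegree_eq_zero hG]
    refine P_C ?_
    have := h 0 le_rfl
    rw [← coeff_zero_eq_eval_zero] at this
    exact this.le
  | succ n ih =>
    intro G hG h
    rcases Nat.lt_or_ge G.natDegree (n + 1) with h1 | h1
    · exact ih G (by omega) h
    have hdeg : G.natDegree = n + 1 := le_antisymm hG h1
    have hG0 : G ≠ 0 := by
      rintro rfl
      simp at hdeg
    -- a complex root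
    obtain ⟨z, hz⟩ := IsAlgClosed.exists_aeval_eq_zero ℂ G (by
      rw [degree_eq_natDegree hG0, hdeg]
      exact_mod_cast Nat.succ_ne_zero n)
    by_cases him : z.im = 0
    · -- real root
      have hr : G.eval z.re = 0 := by
        have hz' : z = ((z.re : ℝ) : ℂ) := by
          apply Complex.ext <;> simp [him]
        rw [hz', ← Complex.coe_algebraMap, aeval_algebraMap_apply] at hz
        simpa using hz
      have hneg : z.re < 0 := by
        by_contra hc
        have := h z.re (not_lt.mp hc)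
        rw [hr] at this
        exact lt_irrefl _ this
      obtain ⟨H, hH⟩ := dvd_iff_isRoot.mpr (show G.IsRoot z.re from hr)
      rw [hH]
      refine (P_lin hneg.le).mul (ih H ?_ fun x hx => ?_)
      · have hH0 : H ≠ 0 := by
          rintro rfl
          rw [mul_zero] at hH
          exact hG0 hH
        rw [hH, natDegree_mul (X_sub_C_ne_zero _) hH0, natDegree_X_sub_C] at hdeg
        omega
      · have h2 := h x hx
        rw [hH, eval_mul, eval_sub, eval_X, eval_C] at h2
        exact (pos_iff_pos_of_mul_pos h2).mp (by linarith)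
    · obtain ⟨H, hH⟩ := quadratic_dvd_of_aeval_eq_zero_im_ne_zero G hz him
      have hpq : z.re ^ 2 < ‖z‖ ^ 2 := by
        rw [Complex.sq_norm, Complex.normSq_apply]
        have : 0 < z.im * z.im := mul_self_pos.mpr him
        nlinarith
      rw [hH]
      have hmon : (X ^ 2 - C (2 * z.re) * X + C (‖z‖ ^ 2) : ℝ[X]).natDegree = 2 := by
        have : (X ^ 2 - C (2 * z.re) * X + C (‖z‖ ^ 2) : ℝ[X])
          = C 1 * X ^ 2 + C (-(2 * z.re)) * X + C (‖z‖ ^ 2) := by
          rw [C_1, C_neg]; ring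
        rw [this]
        exact natDegree_quadratic one_ne_zero
      refine (P_quad hpq).mul (ih H ?_ fun x hx => ?_)
      · have hH0 : H ≠ 0 := by
          rintro rfl
          rw [mul_zero] at hH
          exact hG0 hH
        have hQ0 : (X ^ 2 - C (2 * z.re) * X + C (‖z‖ ^ 2) : ℝ[X]) ≠ 0 := by
          intro h0
          rw [h0] at hmon
          simp at hmon
        rw [hH, natDegree_mul hQ0 hH0, hmon] at hdeg
        omega
      · have h2 := h x hx
        rw [hH, eval_mul] at h2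
        have h3 : 0 < (X ^ 2 - C (2 * z.re) * X + C (‖z‖ ^ 2) : ℝ[X]).eval x := by
          simp only [eval_add, eval_sub, eval_pow, eval_X, eval_mul, eval_C]
          nlinarith [sq_nonneg (x - z.re)]
        exact (pos_iff_pos_of_mul_pos h2).mp h3

/-- A real polynomial which is positive on the closed half line has a product with a power of
`1 + X` whose coefficients are all nonnegative. -/
theorem polya (G : ℝ[X]) (h : ∀ z, 0 ≤ z → 0 < G.eval z) :
    ∃ m : ℕ, ∀ k, 0 ≤ ((1 + X) ^ m * G).coeff k := polya_aux _ G le_rfl h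

end Q48.Polya1
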